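import Mathlib

/-!
# Smoothed subspace monomial matrices: two subspaces of more than half the dimension

For `d ≥ 2` and `s = 2` subspaces of dimension `t = ⌊n/2⌋ + 1` the number of columns is asymptotically
only a fraction `2^{1-d}` of the number of rows, but the two perturbed subspaces always intersect, and
the `d`-th power of a common linear form shows that the columns of `M` are linearly dependent.
-/

set_option autoImplicit false
open MeasureTheory ProbabilityTheory Filter Topology Finset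

namespace Pool.Agent.Results.MP_21e226_pr.IntersectingSubspaces

/-- The linear form `x ↦ ⟨v, x⟩` as a polynomial. -/
noncomputable def linForm {n : ℕ} (v : EuclideanSpace ℝ (Fin n)) : MvPolynomial (Fin n) ℝ :=
  ∑ k, MvPolynomial.C (v k) * MvPolynomial.X k

/-- The exponent vectors of the monomials of degree `d` in `m` variables. -/
abbrev Mono (m d : ℕ) : Type := {α : Fin m → ℕ // α ∈ (Finset.univ : Finset (Fin m)).piAntidiag d}

/-- The matrix `M`: rows are the monomials of degree `d` in `x₁, …, x_n`; the column of block `i`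
with exponent vector `α` is the coefficient vector of `∏_j ℓ_{ij}^{α_j}`. -/
noncomputable def monoMatrix {n t s : ℕ} (d : ℕ) (v : Fin s → Fin t → EuclideanSpace ℝ (Fin n)) :
    Matrix (Mono n d) (Fin s × Mono t d) ℝ :=
  fun β c => MvPolynomial.coeff (Finsupp.equivFunOnFinite.symm β.1)
    (∏ j, linForm (v c.1 j) ^ (c.2.1 j))

/-- Euclidean norm. -/
noncomputable def norm2 {ι : Type} [Fintype ι] (x : ι → ℝ) : ℝ := Real.sqrt (∑ i, x i ^ 2)

/-- The smallest singular value: minimum of `‖M u‖` over unit vectors `u` (this is the singular value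
with index the number of columns). -/
noncomputable def sigmaMin {R K : Type} [Fintype R] [Fintype K] (M : Matrix R K ℝ) : ℝ :=
  ⨅ u : {u : K → ℝ // norm2 u = 1}, norm2 (M.mulVec u.1)

/-- The law of the perturbations `G_1, …, G_s`: independent `N(0, ρ²/n)` entries. -/
noncomputable def noise (n t s : ℕ) (ρ : ℝ) : Measure (Fin s → Fin n → Fin t → ℝ) :=
  Measure.pi fun _ => Measure.pi fun _ => Measure.pi fun _ =>
    gaussianReal 0 (Real.toNNReal (ρ ^ 2 / n))

/-- `v i` is, for every `i`, an orthonormal basis of the column span of `P i + G i`. -/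
def IsBasis {n t s : ℕ} (P : Fin s → Matrix (Fin n) (Fin t) ℝ) (G : Fin s → Fin n → Fin t → ℝ)
    (v : Fin s → Fin t → EuclideanSpace ℝ (Fin n)) : Prop :=
  ∀ i, Orthonormal ℝ (v i) ∧ Submodule.span ℝ (Set.range (v i)) =
    Submodule.span ℝ (Set.range fun j : Fin t => WithLp.toLp 2 fun k : Fin n => P i k j + G i k j)

/-- The statement of Q1 (with the event enlarged to: for some choice of the orthonormal bases). -/
def Q1 : Prop :=
  ∀ d : ℕ, 1 ≤ d → ∀ δ : ℝ, 0 < δ → δ < 1 → ∃ C : ℝ, ∀ ε : ℝ, 0 < ε → ∃ n₀ : ℕ,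
    ∀ n t s : ℕ, n₀ ≤ n → 1 ≤ t → t ≤ n → 1 ≤ s →
      ((s * (t + d - 1).choose d : ℕ) : ℝ) ≤ (1 - δ) * ((n + d - 1).choose d : ℕ) →
      ∀ ρ : ℝ, 0 < ρ → ρ ≤ 1 → ∀ P : Fin s → Matrix (Fin n) (Fin t) ℝ,
        (∀ i, (P i).transpose * P i = 1) →
        ENNReal.ofReal (1 - ε) ≤ noise n t s ρ
          {G | ∃ v, IsBasis P G v ∧ (ρ / n) ^ C ≤ sigmaMin (monoMatrix d v)}

theorem linForm_sum {n t : ℕ} (v : Fin t → EuclideanSpace ℝ (Fin n)) (a : Fin t → ℝ) :
    linForm (∑ j, a j • v j) = ∑ j, MvPolynomial.C (a j) * linForm (v j) := by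
  unfold linForm
  simp only [Finset.mul_sum]
  rw [Finset.sum_comm]
  refine Finset.sum_congr rfl fun k _ => ?_
  have h : (∑ j, a j • v j : EuclideanSpace ℝ (Fin n)) k = ∑ j, a j * v j k := by
    simp
  rw [h, map_sum, Finset.sum_mul]
  refine Finset.sum_congr rfl fun j _ => ?_
  rw [map_mul]
  ring

/-- expansion of the power of a linear combination -/
theorem pow_expand {n t : ℕ} (d : ℕ) (v : Fin t → EuclideanSpace ℝ (Fin n)) (a : Fin t → ℝ) :
    linForm (∑ j, a j • v j) ^ d = ∑ α : Mono t d,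
      MvPolynomial.C ((Nat.multinomial Finset.univ α.1 : ℝ) * ∏ j, a j ^ α.1 j) *
        ∏ j, linForm (v j) ^ (α.1 j) := by
  rw [linForm_sum, Finset.sum_pow_eq_sum_piAntidiag]
  rw [← Finset.sum_coe_sort]
  refine Finset.sum_congr rfl fun α _ => ?_
  simp only [mul_pow, Finset.prod_mul_distrib, map_mul, map_prod, map_pow, map_natCast]
  ring

theorem exists_common {n t : ℕ} (v : Fin 2 → Fin t → EuclideanSpace ℝ (Fin n))
    (hv : ∀ i, Orthonormal ℝ (v i)) (h : n < 2 * t) :
    ∃ a b : Fin t → ℝ, (∑ j, a j • v 0 j) = (∑ j, b j • v 1 j) ∧ ∃ j, a j ≠ 0 := by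
  set W0 := Submodule.span ℝ (Set.range (v 0)) with hW0
  set W1 := Submodule.span ℝ (Set.range (v 1)) with hW1
  have d0 : Module.finrank ℝ W0 = t := by
    rw [hW0, finrank_span_eq_card (hv 0).linearIndependent, Fintype.card_fin]
  have d1 : Module.finrank ℝ W1 = t := by
    rw [hW1, finrank_span_eq_card (hv 1).linearIndependent, Fintype.card_fin]
  have hs := Submodule.finrank_sup_add_finrank_inf_eq W0 W1
  have hle : Module.finrank ℝ (W0 ⊔ W1 : Submodule ℝ (EuclideanSpace ℝ (Fin n))) ≤ n := by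
    have := Submodule.finrank_le (W0 ⊔ W1)
    simpa using this
  have hpos : 0 < Module.finrank ℝ (W0 ⊓ W1 : Submodule ℝ (EuclideanSpace ℝ (Fin n))) := by omega
  have hne : (W0 ⊓ W1) ≠ ⊥ := by
    intro e
    rw [e] at hpos
    simp at hpos
  obtain ⟨w, hw, hw0⟩ := (Submodule.ne_bot_iff _).1 hne
  obtain ⟨a, ha⟩ := (Submodule.mem_span_range_iff_exists_fun ℝ).1 hw.1
  obtain ⟨b, hb⟩ := (Submodule.mem_span_range_iff_exists_fun ℝ).1 hw.2
  refine ⟨a, b, ha.trans hb.symm, ?_⟩
  by_contra hcon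
  push Not at hcon
  apply hw0
  rw [← ha]
  simp [hcon]

theorem norm2_sq {ι : Type} [Fintype ι] (x : ι → ℝ) : norm2 x ^ 2 = ∑ i, x i ^ 2 := by
  unfold norm2
  rw [Real.sq_sqrt (Finset.sum_nonneg fun i _ => sq_nonneg _)]

theorem norm2_smul {ι : Type} [Fintype ι] (c : ℝ) (x : ι → ℝ) : norm2 (c • x) = |c| * norm2 x := by
  unfold norm2
  simp only [Pi.smul_apply, smul_eq_mul, mul_pow, ← Finset.mul_sum]
  rw [Real.sqrt_mul (sq_nonneg c), Real.sqrt_sq_eq_abs]

/-- a nontrivial kernel forces the smallest singular value to vanish -/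
theorem sigmaMin_eq_zero {R K : Type} [Fintype R] [Fintype K] (M : Matrix R K ℝ) (u : K → ℝ)
    (hu : M.mulVec u = 0) (c : K) (hc : u c ≠ 0) : sigmaMin M = 0 := by
  have hpos : 0 < norm2 u := by
    unfold norm2
    exact Real.sqrt_pos.2 (Finset.sum_pos' (fun i _ => sq_nonneg _) ⟨c, Finset.mem_univ _, by positivity⟩)
  have h1 : norm2 ((norm2 u)⁻¹ • u) = 1 := by
    rw [norm2_smul, abs_of_pos (inv_pos.2 hpos), inv_mul_cancel₀ hpos.ne']
  have hbdd : BddBelow (Set.range fun u : {u : K → ℝ // norm2 u = 1} => norm2 (M.mulVec u.1)) :=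
    ⟨0, by rintro _ ⟨u, rfl⟩; exact Real.sqrt_nonneg _⟩
  apply le_antisymm
  · refine (ciInf_le hbdd ⟨(norm2 u)⁻¹ • u, h1⟩).trans (le_of_eq ?_)
    simp only [Matrix.mulVec_smul, hu, smul_zero]
    unfold norm2
    simp
  · exact Real.iInf_nonneg fun u => Real.sqrt_nonneg _

/-- Two orthonormal families of more than half the dimension: dependent columns for every `d`. -/
theorem dependent {n t d : ℕ} (v : Fin 2 → Fin t → EuclideanSpace ℝ (Fin n))
    (hv : ∀ i, Orthonormal ℝ (v i)) (h : n < 2 * t) : sigmaMin (monoMatrix d v) = 0 := by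
  obtain ⟨a, b, hab, j₀, hj₀⟩ := exists_common v hv h
  have hpoly : (∑ α : Mono t d, MvPolynomial.C ((Nat.multinomial Finset.univ α.1 : ℝ) * ∏ j, a j ^ α.1 j) *
        ∏ j, linForm (v 0 j) ^ (α.1 j)) =
      ∑ α : Mono t d, MvPolynomial.C ((Nat.multinomial Finset.univ α.1 : ℝ) * ∏ j, b j ^ α.1 j) *
        ∏ j, linForm (v 1 j) ^ (α.1 j) := by
    rw [← pow_expand, ← pow_expand, hab]
  set u : Fin 2 × Mono t d → ℝ := fun c =>
    if c.1 = 0 then (Nat.multinomial Finset.univ c.2.1 : ℝ) * ∏ j, a j ^ c.2.1 j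
    else -((Nat.multinomial Finset.univ c.2.1 : ℝ) * ∏ j, b j ^ c.2.1 j) with hu
  have hmem : (fun j => if j = j₀ then d else 0) ∈ (Finset.univ : Finset (Fin t)).piAntidiag d := by
    rw [Finset.mem_piAntidiag]
    refine ⟨by simp, fun i _ => Finset.mem_univ _⟩
  refine sigmaMin_eq_zero _ u ?_ (0, ⟨fun j => if j = j₀ then d else 0, hmem⟩) ?_
  · funext β
    have h1 := congrArg (MvPolynomial.coeff (Finsupp.equivFunOnFinite.symm β.1)) hpoly
    simp only [MvPolynomial.coeff_sum, MvPolynomial.coeff_C_mul] at h1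
    change ∑ c : Fin 2 × Mono t d, monoMatrix d v β c * u c = 0
    rw [Fintype.sum_prod_type, Fin.sum_univ_two]
    have e0 : ∀ α : Mono t d, monoMatrix d v β (0, α) * u (0, α) =
        ((Nat.multinomial Finset.univ α.1 : ℝ) * ∏ j, a j ^ α.1 j) *
          MvPolynomial.coeff (Finsupp.equivFunOnFinite.symm β.1) (∏ j, linForm (v 0 j) ^ (α.1 j)) := by
      intro α
      simp only [monoMatrix, hu, if_true]
      ring
    have e1 : ∀ α : Mono t d, monoMatrix d v β (1, α) * u (1, α) =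
        -(((Nat.multinomial Finset.univ α.1 : ℝ) * ∏ j, b j ^ α.1 j) *
          MvPolynomial.coeff (Finsupp.equivFunOnFinite.symm β.1) (∏ j, linForm (v 1 j) ^ (α.1 j))) := by
      intro α
      simp only [monoMatrix, hu, one_ne_zero, if_false]
      ring
    rw [Finset.sum_congr rfl fun α _ => e0 α, Finset.sum_congr rfl fun α _ => e1 α,
      Finset.sum_neg_distrib, h1]
    ring
  · simp only [hu, if_true]
    refine mul_ne_zero ?_ ?_
    · exact_mod_cast (Nat.multinomial_pos _ _).ne'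
    · refine Finset.prod_ne_zero_iff.2 fun j _ => ?_
      by_cases hj : j = j₀
      · subst hj
        exact pow_ne_zero _ hj₀
      · rw [if_neg hj, pow_zero]
        exact one_ne_zero

/-- the dimension count -/
theorem count_limit (d : ℕ) :
    Tendsto (fun n : ℕ => ((2 * (n / 2 + 1 + d - 1).choose d : ℕ) : ℝ) / ((n + d - 1).choose d : ℕ))
      atTop (𝓝 (2 * (1 / 2) ^ d)) := by
  have hfac : ∀ m : ℕ, 1 ≤ m → (((m + d - 1).choose d : ℕ) : ℝ) = (∏ i ∈ Finset.range d, ((m : ℝ) + i)) / d.factorial := by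
    intro m hm
    obtain ⟨k, rfl⟩ : ∃ k, m = k + 1 := ⟨m - 1, by omega⟩
    have h1 := Nat.ascFactorial_eq_factorial_mul_choose' (k + 1) d
    have h2 : ((k + 1).ascFactorial d : ℝ) = ∏ i ∈ Finset.range d, (((k + 1 : ℕ) : ℝ) + i) := by
      rw [Nat.ascFactorial_eq_prod_range]
      push_cast
      rfl
    rw [← h2, h1]
    push_cast
    field_simp
  have hterm : ∀ i : ℕ, Tendsto (fun n : ℕ => (((n / 2 + 1 : ℕ) : ℝ) + i) / ((n : ℝ) + i)) atTop (𝓝 (1 / 2)) := by
    intro i
    have hn : Tendsto (fun n : ℕ => (n : ℝ) + i) atTop atTop :=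
      tendsto_atTop_add_const_right _ _ tendsto_natCast_atTop_atTop
    have hlim : Tendsto (fun n : ℕ => ((i : ℝ) + 2) / ((n : ℝ) + i)) atTop (𝓝 0) :=
      Tendsto.const_div_atTop hn _
    have hup : Tendsto (fun n : ℕ => 1 / 2 + ((i : ℝ) + 2) / ((n : ℝ) + i)) atTop (𝓝 (1 / 2)) := by
      simpa using hlim.const_add (1 / 2 : ℝ)
    refine tendsto_of_tendsto_of_tendsto_of_le_of_le' tendsto_const_nhds hup ?_ ?_
    · filter_upwards [eventually_ge_atTop 1] with n hn1
      have hn0 : (0 : ℝ) < (n : ℝ) + i := by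
        have : (1 : ℝ) ≤ n := by exact_mod_cast hn1
        positivity
      rw [div_le_div_iff₀ (by norm_num) hn0]
      have : n ≤ 2 * (n / 2 + 1) := by omega
      have h' : (n : ℝ) ≤ 2 * ((n / 2 + 1 : ℕ) : ℝ) := by exact_mod_cast this
      have hi : (0 : ℝ) ≤ i := Nat.cast_nonneg i
      nlinarith
    · filter_upwards [eventually_ge_atTop 1] with n hn1
      have hn0 : (0 : ℝ) < (n : ℝ) + i := by
        have : (1 : ℝ) ≤ n := by exact_mod_cast hn1
        positivity
      rw [div_add_div _ _ (by norm_num) hn0.ne', div_le_div_iff₀ hn0 (by positivity)]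
      have : 2 * (n / 2 + 1) ≤ n + 2 := by omega
      have h' : 2 * ((n / 2 + 1 : ℕ) : ℝ) ≤ n + 2 := by exact_mod_cast this
      have hi : (0 : ℝ) ≤ i := Nat.cast_nonneg i
      have h3 : 2 * (((n / 2 + 1 : ℕ) : ℝ) + i) ≤ (1 * ((n : ℝ) + i) + 2 * ((i : ℝ) + 2)) := by linarith
      nlinarith
  have hprod := tendsto_finset_prod (Finset.range d) (fun i _ => hterm i)
  rw [Finset.prod_const, Finset.card_range] at hprod
  refine (hprod.const_mul 2).congr' ?_
  filter_upwards [eventually_ge_atTop 1] with n hn1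
  rw [Finset.prod_div_distrib, Nat.cast_mul, hfac (n / 2 + 1) (by omega), hfac n hn1]
  have hd : (d.factorial : ℝ) ≠ 0 := by positivity
  have hne : ∏ i ∈ Finset.range d, ((n : ℝ) + i) ≠ 0 := by
    refine Finset.prod_ne_zero_iff.2 fun i _ => ?_
    have : (1 : ℝ) ≤ n := by exact_mod_cast hn1
    positivity
  push_cast
  field_simp

/-- **Main theorem.** (i) For all `d ≥ 2` and `δ < 1 - 2^{1-d}`, for all large `n` the parameters
`s = 2`, `t = ⌊n/2⌋ + 1` satisfy the dimension condition. (ii) For these `s`, `t`, every `d` and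
*all* pairs of `t`-dimensional subspaces with orthonormal bases `v`, `σ_N(M) = 0`. (iii) The statement
of Q1 is false. -/
theorem result :
    (∀ d : ℕ, 2 ≤ d → ∀ δ : ℝ, δ < 1 - 2 * (1 / 2) ^ d → ∀ᶠ n : ℕ in atTop,
      ((2 * (n / 2 + 1 + d - 1).choose d : ℕ) : ℝ) ≤ (1 - δ) * ((n + d - 1).choose d : ℕ)) ∧
    (∀ n d : ℕ, ∀ v : Fin 2 → Fin (n / 2 + 1) → EuclideanSpace ℝ (Fin n),
      (∀ i, Orthonormal ℝ (v i)) → sigmaMin (monoMatrix d v) = 0) ∧
    ¬ Q1 := by
  have h1 : ∀ d : ℕ, 2 ≤ d → ∀ δ : ℝ, δ < 1 - 2 * (1 / 2) ^ d → ∀ᶠ n : ℕ in atTop,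
      ((2 * (n / 2 + 1 + d - 1).choose d : ℕ) : ℝ) ≤ (1 - δ) * ((n + d - 1).choose d : ℕ) := by
    intro d _ δ hδ
    have h2 : 2 * (1 / 2 : ℝ) ^ d < 1 - δ := by linarith
    filter_upwards [(count_limit d).eventually (gt_mem_nhds h2), eventually_ge_atTop 1] with n hn hn1
    have hpos : (0 : ℝ) < ((n + d - 1).choose d : ℕ) := by
      exact_mod_cast Nat.choose_pos (by omega)
    rw [div_lt_iff₀ hpos] at hn
    exact hn.le
  refine ⟨h1, fun n d v hv => dependent v hv (by omega), fun H => ?_⟩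
  obtain ⟨C, hC⟩ := H 2 (by norm_num) (1 / 4) (by norm_num) (by norm_num)
  obtain ⟨n₀, hn₀⟩ := hC (1 / 2) (by norm_num)
  obtain ⟨n, hn, hcount, hn2⟩ := ((eventually_ge_atTop n₀).and
    ((h1 2 le_rfl (1 / 4) (by norm_num)).and (eventually_ge_atTop 2))).exists
  set t := n / 2 + 1 with ht
  have htn : t ≤ n := by omega
  -- a matrix with orthonormal columns
  let P0 : Matrix (Fin n) (Fin t) ℝ := fun k j => if k = Fin.castLE htn j then 1 else 0
  have hP0 : P0.transpose * P0 = 1 := by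
    ext i j
    change ∑ k, (if k = Fin.castLE htn i then (1 : ℝ) else 0) *
      (if k = Fin.castLE htn j then (1 : ℝ) else 0) = _
    rw [Matrix.one_apply]
    by_cases hij : i = j
    · subst hij
      simp
    · rw [if_neg hij]
      refine Finset.sum_eq_zero fun k _ => ?_
      by_cases hk : k = Fin.castLE htn i
      · rw [if_pos hk, one_mul, if_neg]
        intro e
        exact hij (Fin.castLE_injective htn (hk.symm.trans e))
      · rw [if_neg hk, zero_mul]
  have hfin := hn₀ n t 2 hn (by omega) htn (by norm_num) (by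
    have := hcount
    simpa [ht] using this) 1 one_pos le_rfl (fun _ => P0) (fun _ => hP0)
  have hempty : {G : Fin 2 → Fin n → Fin t → ℝ | ∃ v, IsBasis (fun _ => P0) G v ∧
      ((1 : ℝ) / n) ^ C ≤ sigmaMin (monoMatrix 2 v)} = ∅ := by
    ext G
    simp only [Set.mem_setOf_eq, Set.mem_empty_iff_false, iff_false]
    rintro ⟨v, hv, hle⟩
    rw [dependent v (fun i => (hv i).1) (by omega)] at hle
    have : (0 : ℝ) < ((1 : ℝ) / n) ^ C := by
      have : (0 : ℝ) < n := by
        have : 0 < n := by omega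
        exact_mod_cast this
      positivity
    linarith
  rw [hempty, measure_empty, nonpos_iff_eq_zero, ENNReal.ofReal_eq_zero] at hfin
  linarith

end Pool.Agent.Results.MP_21e226_pr.IntersectingSubspaces
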